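import Mathlib

/-!
# Parity of reflection crossings in a Coxeter group

For a Coxeter system `cs : CoxeterSystem M W` we build the cocycle
`eta : W → W → ZMod 2` with `eta (s_i) t = [t = s_i]` and
`eta (u * w) t = eta w t + eta u (w * t * w⁻¹)`, by letting `W` act on `W × ZMod 2`.
-/

namespace Pool.Agent.Lib_helper16

open CoxeterSystem

variable {B : Type*} {M : CoxeterMatrix B} {W : Type*} [Group W] (cs : CoxeterSystem M W)

open Classical in
/-- indicator with values in `ZMod 2` -/
noncomputable def ind (p : Prop) : ZMod 2 := if p then 1 else 0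

lemma ind_true {p : Prop} (h : p) : ind p = 1 := by simp [ind, h]
lemma ind_false {p : Prop} (h : ¬ p) : ind p = 0 := by simp [ind, h]
lemma ind_congr {p q : Prop} (h : p ↔ q) : ind p = ind q := by rw [propext h]
lemma ind_add_self (p : Prop) : ind p + ind p = 0 := by
  have : ∀ x : ZMod 2, x + x = 0 := by decide
  exact this _

/-- The generator permutation of `W × ZMod 2`. -/
noncomputable def genPerm (i : B) : Equiv.Perm (W × ZMod 2) where
  toFun p := (cs.simple i * p.1 * cs.simple i, p.2 + ind (p.1 = cs.simple i))
  invFun p := (cs.simple i * p.1 * cs.simple i, p.2 + ind (p.1 = cs.simple i))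
  left_inv p := by
    have h1 : cs.simple i * (cs.simple i * p.1 * cs.simple i) * cs.simple i = p.1 := by
      simp [mul_assoc]
    have h2 : (cs.simple i * p.1 * cs.simple i = cs.simple i) ↔ (p.1 = cs.simple i) := by
      constructor
      · intro h
        have := congrArg (fun x => cs.simple i * x * cs.simple i) h
        simpa [mul_assoc] using this
      · intro h
        rw [h]; simp
    ext
    · exact h1
    · simp only [ind_congr h2, add_assoc, ind_add_self, add_zero]
  right_inv p := by
    have h1 : cs.simple i * (cs.simple i * p.1 * cs.simple i) * cs.simple i = p.1 := by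
      simp [mul_assoc]
    have h2 : (cs.simple i * p.1 * cs.simple i = cs.simple i) ↔ (p.1 = cs.simple i) := by
      constructor
      · intro h
        have := congrArg (fun x => cs.simple i * x * cs.simple i) h
        simpa [mul_assoc] using this
      · intro h
        rw [h]; simp
    ext
    · exact h1
    · simp only [ind_congr h2, add_assoc, ind_add_self, add_zero]

lemma genPerm_apply (i : B) (p : W × ZMod 2) :
    genPerm cs i p = (cs.simple i * p.1 * cs.simple i, p.2 + ind (p.1 = cs.simple i)) := rfl

/-- the reflections met by the alternating word -/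
noncomputable def refl (i j : B) (k : ℕ) : W := (cs.simple j * cs.simple i) ^ k * cs.simple j

lemma pow_conj_aux (a b : W) (n : ℕ) :
    b * (a * b) ^ n = (b * a) ^ n * b := by
  induction n with
  | zero => simp
  | succ n ih =>
    rw [pow_succ', pow_succ']
    calc b * (a * b * (a * b) ^ n) = (b * a) * (b * (a * b) ^ n) := by simp [mul_assoc]
      _ = (b * a) * ((b * a) ^ n * b) := by rw [ih]
      _ = b * a * (b * a) ^ n * b := by simp [mul_assoc]

lemma inv_pow_aux (a b : W) (ha : a * a = 1) (hb : b * b = 1) (n : ℕ) :
    (b * a) ^ n * (a * b) ^ n = 1 := by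
  have hinv : b * a = (a * b)⁻¹ := by
    rw [mul_inv_rev]
    have h1 : a⁻¹ = a := inv_eq_of_mul_eq_one_left ha
    have h2 : b⁻¹ = b := inv_eq_of_mul_eq_one_left hb
    rw [h1, h2]
  rw [hinv, inv_pow, inv_mul_cancel]

lemma genPerm_pow (i j : B) (n : ℕ) (t : W) (ε : ZMod 2) :
    ((genPerm cs i * genPerm cs j) ^ n) (t, ε) =
      ((cs.simple i * cs.simple j) ^ n * t * (cs.simple j * cs.simple i) ^ n,
        ε + ∑ k ∈ Finset.range (2 * n), ind (t = refl cs i j k)) := by
  set a := cs.simple i with ha
  set b := cs.simple j with hb
  have haa : a * a = 1 := by simp [ha]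
  have hbb : b * b = 1 := by simp [hb]
  induction n with
  | zero => simp
  | succ n ih =>
    rw [pow_succ', Equiv.Perm.mul_apply, ih, Equiv.Perm.mul_apply, genPerm_apply, genPerm_apply]
    rw [← ha, ← hb]
    have hP : (b * a) ^ n * (a * b) ^ n = 1 := inv_pow_aux a b haa hbb n
    have hQ : (a * b) ^ n * (b * a) ^ n = 1 := inv_pow_aux b a hbb haa n
    have e1 : ((a * b) ^ n * t * (b * a) ^ n = b) ↔ t = refl cs i j (2 * n) := by
      unfold refl
      rw [← ha, ← hb]
      have hc : (b * a) ^ (2 * n) * b = (b * a) ^ n * b * (a * b) ^ n := by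
        rw [two_mul, pow_add, mul_assoc, mul_assoc, ← pow_conj_aux a b n]
      rw [hc]
      constructor
      · intro h
        have h3 : t = (b * a) ^ n * ((a * b) ^ n * t * (b * a) ^ n) * (a * b) ^ n := by
          calc t = ((b * a) ^ n * (a * b) ^ n) * t * ((b * a) ^ n * (a * b) ^ n) := by
                rw [hP]; simp
            _ = _ := by simp only [mul_assoc]
        rw [h] at h3
        exact h3
      · intro h
        rw [h]
        calc (a * b) ^ n * ((b * a) ^ n * b * (a * b) ^ n) * (b * a) ^ n
            = ((a * b) ^ n * (b * a) ^ n) * b * ((a * b) ^ n * (b * a) ^ n) := by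
              simp only [mul_assoc]
          _ = b := by rw [hQ]; simp
    have e2 : (b * ((a * b) ^ n * t * (b * a) ^ n) * b = a) ↔ t = refl cs i j (2 * n + 1) := by
      unfold refl
      rw [← ha, ← hb]
      have hc : (b * a) ^ (2 * n + 1) * b = (b * a) ^ n * (b * a * b) * (a * b) ^ n := by
        have : 2 * n + 1 = n + (1 + n) := by ring
        rw [this, pow_add, pow_add, pow_one, mul_assoc, mul_assoc, mul_assoc,
          ← pow_conj_aux a b n]
        simp only [mul_assoc]
      rw [hc]
      constructor
      · intro h
        have h' : (a * b) ^ n * t * (b * a) ^ n = b * a * b := by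
          have h4 : (a * b) ^ n * t * (b * a) ^ n
              = b * (b * ((a * b) ^ n * t * (b * a) ^ n) * b) * b := by
            calc (a * b) ^ n * t * (b * a) ^ n
                = (b * b) * ((a * b) ^ n * t * (b * a) ^ n) * (b * b) := by rw [hbb]; simp
              _ = _ := by simp only [mul_assoc]
          rw [h] at h4
          exact h4
        have h3 : t = (b * a) ^ n * ((a * b) ^ n * t * (b * a) ^ n) * (a * b) ^ n := by
          calc t = ((b * a) ^ n * (a * b) ^ n) * t * ((b * a) ^ n * (a * b) ^ n) := by
                rw [hP]; simp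
            _ = _ := by simp only [mul_assoc]
        rw [h'] at h3
        exact h3
      · intro h
        rw [h]
        calc b * ((a * b) ^ n * ((b * a) ^ n * (b * a * b) * (a * b) ^ n) * (b * a) ^ n) * b
            = b * (((a * b) ^ n * (b * a) ^ n) * (b * a * b) * ((a * b) ^ n * (b * a) ^ n)) * b := by
              simp only [mul_assoc]
          _ = (b * b) * a * (b * b) := by rw [hQ]; simp [mul_assoc]
          _ = a := by rw [hbb]; simp
    have hr : 2 * (n + 1) = (2 * n + 1) + 1 := by ring
    have hsum : ∑ k ∈ Finset.range (2 * (n + 1)), ind (t = refl cs i j k) =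
        ∑ k ∈ Finset.range (2 * n), ind (t = refl cs i j k) + ind (t = refl cs i j (2 * n)) +
          ind (t = refl cs i j (2 * n + 1)) := by
      rw [hr, Finset.sum_range_succ, Finset.sum_range_succ]
    ext
    · simp only [pow_succ (b * a) n, pow_succ' (a * b) n, mul_assoc]
    · simp only [hsum, ind_congr e1, ind_congr e2, add_assoc]

lemma genPerm_isLiftable : M.IsLiftable (genPerm cs) := by
  intro i j
  ext ⟨t, ε⟩ : 1
  rw [genPerm_pow]
  have h1 : (cs.simple i * cs.simple j) ^ M.M i j = 1 := cs.simple_mul_simple_pow i j
  have h2 : (cs.simple j * cs.simple i) ^ M.M i j = 1 := cs.simple_mul_simple_pow' i j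
  rw [h1, h2]
  have h3 : ∑ k ∈ Finset.range (2 * M.M i j), ind (t = refl cs i j k) = 0 := by
    rw [two_mul, Finset.sum_range_add]
    have : ∀ k, refl cs i j (M.M i j + k) = refl cs i j k := by
      intro k
      unfold refl
      rw [pow_add, h2, one_mul]
    simp only [this]
    rw [← Finset.sum_add_distrib]
    apply Finset.sum_eq_zero
    intro k _
    exact ind_add_self _
  rw [h3]
  simp

/-- The action of `W` on `W × ZMod 2`. -/
noncomputable def actHom : W →* Equiv.Perm (W × ZMod 2) :=
  cs.lift ⟨genPerm cs, genPerm_isLiftable cs⟩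

lemma actHom_simple (i : B) : actHom cs (cs.simple i) = genPerm cs i := by
  unfold actHom
  exact cs.lift_apply_simple (genPerm_isLiftable cs) i

/-- parity cocycle -/
noncomputable def eta (w t : W) : ZMod 2 := (actHom cs w (t, 0)).2

lemma actHom_snd (w : W) : ∀ (t : W) (ε : ZMod 2),
    actHom cs w (t, ε) = (w * t * w⁻¹, ε + eta cs w t) := by
  induction w using cs.simple_induction_left with
  | one => intro t ε; simp [eta]
  | mul_simple_left w i ih =>
    intro t ε
    have h0 := ih t 0
    have h1 := ih t ε
    have hs : ∀ t ε, actHom cs (cs.simple i * w) (t, ε) =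
        (cs.simple i * w * t * (cs.simple i * w)⁻¹,
          ε + eta cs w t + ind (w * t * w⁻¹ = cs.simple i)) := by
      intro t ε
      rw [map_mul, Equiv.Perm.mul_apply, ih t ε, actHom_simple, genPerm_apply]
      ext
      · simp [mul_assoc]
      · simp
    have he : eta cs (cs.simple i * w) t = eta cs w t + ind (w * t * w⁻¹ = cs.simple i) := by
      unfold eta
      rw [hs t 0]
      simp [eta]
    rw [hs, he, add_assoc]

lemma eta_one (t : W) : eta cs 1 t = 0 := by simp [eta]

lemma eta_mul (u w t : W) : eta cs (u * w) t = eta cs w t + eta cs u (w * t * w⁻¹) := by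
  have h := actHom_snd cs (u * w) t 0
  rw [map_mul, Equiv.Perm.mul_apply, actHom_snd cs w t 0, actHom_snd cs u] at h
  have := congrArg Prod.snd h
  simp only [zero_add] at this
  exact this.symm

lemma eta_simple (i : B) (t : W) : eta cs (cs.simple i) t = ind (t = cs.simple i) := by
  unfold eta
  rw [actHom_simple, genPerm_apply]
  simp

end Pool.Agent.Lib_helper16
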